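import Pool.Agent.Work.MP_2553b2_an.Proof

/-!
# Unbounded solutions of `x_{n+1} = x_n / (C x_{n-1} + x_{n-2})`

In logarithmic coordinates `u_n = log x_n` the recursion is, up to a bounded error, the max-plus
recursion `u_{n+1} = u_n - max(u_{n-1}, u_{n-2})`.  Near the direction `(5, 1, -4)` fifteen steps
of the max-plus recursion are the linear map `3 P`, where `P` is the orthogonal projection onto
the plane `a - b + c = 0`; so `log x_{15 k}` grows like `3^k`.
-/

namespace Pool.Agent.Results.MP_2553b2_an.UnboundedEveryC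

/-- `x` is a solution of `x_{n+1} = x_n / (C x_{n-1} + x_{n-2})` with admissible nonnegative
initial values; `x k` stands for `x_{k-2}` of the problem, so the solution is
`x 0 = x_{-2}, x 1 = x_{-1}, x 2 = x_0, x 3 = x_1, …`. -/
structure IsAdmissibleSolution (C : ℝ) (x : ℕ → ℝ) : Prop where
  init_nonneg : 0 ≤ x 0 ∧ 0 ≤ x 1 ∧ 0 ≤ x 2
  denom_pos : ∀ n : ℕ, 0 < C * x (n + 1) + x n
  recursion : ∀ n : ℕ, x (n + 3) = x (n + 2) / (C * x (n + 1) + x n)

/-- For every `C > 0` there are positive initial values whose solution is unbounded. -/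
theorem result (C : ℝ) (hC : 0 < C) :
    ∃ x : ℕ → ℝ, IsAdmissibleSolution C x ∧ (∀ n, 0 < x n) ∧ ¬ BddAbove (Set.range x) := by
  obtain ⟨x, hpos, hrec, hunb⟩ := Pool.Agent.Work.MP_2553b2_an.main C hC
  refine ⟨x, ⟨⟨(hpos 0).le, (hpos 1).le, (hpos 2).le⟩, fun n => ?_, hrec⟩, hpos, hunb⟩
  have h1 := hpos n
  have h2 := hpos (n + 1)
  positivity

end Pool.Agent.Results.MP_2553b2_an.UnboundedEveryC
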